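import Mathlib
import Pool.Agent.X258.MRD.Code3

/-!
# MP_bf8bcd_co, Q1: disproof

There is an additive MRD code in `M_3(F_4)` with minimum distance `2` that contains no code
equivalent to the field spread set of `F_64`.
-/

set_option autoImplicit false

namespace Pool.Agent.Results.MP_bf8bcd_co.NoFieldSpreadSet

open Matrix

/-- The rank distance of two square matrices. -/
noncomputable def rankDist {K : Type} [Field K] {n : ℕ} (A B : Matrix (Fin n) (Fin n) K) : ℕ :=
  (A - B).rank

/-- `d` is the minimum distance of the code `C`: the least rank distance of two different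
members of `C` (in particular `C` has at least two members). -/
def IsMinDist {K : Type} [Field K] {n : ℕ} (C : Set (Matrix (Fin n) (Fin n) K)) (d : ℕ) : Prop :=
  IsLeast {r | ∃ A ∈ C, ∃ B ∈ C, A ≠ B ∧ r = rankDist A B} d

/-- `C` is an MRD code with minimum distance `d`: it has minimum distance `d` and
`q ^ (n (n - d + 1))` members, where `q = |K|`. -/
def IsMRD {K : Type} [Field K] {n : ℕ} (C : Set (Matrix (Fin n) (Fin n) K)) (d : ℕ) : Prop :=
  IsMinDist C d ∧ C.ncard = Nat.card K ^ (n * (n - d + 1))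

/-- `C` and `C'` are equivalent: `C' = {A X^σ B : X ∈ C}` or `C' = {A (X^σ)ᵀ B : X ∈ C}` with
`A`, `B` invertible and `σ` a field automorphism applied entrywise. -/
def Equivalent {K : Type} [Field K] {n : ℕ} (C C' : Set (Matrix (Fin n) (Fin n) K)) : Prop :=
  ∃ (A B : GL (Fin n) K) (σ : K ≃+* K),
    C' = (fun X => (A : Matrix (Fin n) (Fin n) K) * X.map σ * (B : Matrix (Fin n) (Fin n) K)) '' C ∨
    C' = (fun X => (A : Matrix (Fin n) (Fin n) K) * (X.map σ)ᵀ *
      (B : Matrix (Fin n) (Fin n) K)) '' C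

/-- The field spread set of an extension field `L` of `K` with `K`-basis `b`: the matrices with
respect to `b` of the maps `x ↦ a x`, `a ∈ L`. -/
def fieldSpreadSet {K L : Type} [Field K] [Field L] [Algebra K L] {n : ℕ}
    (b : Module.Basis (Fin n) K L) : Set (Matrix (Fin n) (Fin n) K) :=
  Set.range fun a : L => LinearMap.toMatrix b b (LinearMap.mulLeft K a)

open Pool.Agent.X258.MRD in
theorem code_isMRD : IsMRD (code3 : Set (Matrix (Fin 3) (Fin 3) F4)) 2 := by
  refine ⟨⟨?_, ?_⟩, ?_⟩
  · have hmem : (!![1, 0, 0; 0, 0, 0; 0, 1, 0] : Matrix (Fin 3) (Fin 3) F4) ∈ code3 := by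
      rw [mem_code3]; refine ⟨?_, ?_, ?_⟩ <;> decide
    have hne : (!![1, 0, 0; 0, 0, 0; 0, 1, 0] : Matrix (Fin 3) (Fin 3) F4) ≠ 0 := by
      intro h
      have := congrFun (congrFun h 0) 0
      revert this; decide
    refine ⟨_, hmem, 0, code3.zero_mem, hne, ?_⟩
    have h2 := two_le_rank3 hmem hne
    have hle : (!![1, 0, 0; 0, 0, 0; 0, 1, 0] : Matrix (Fin 3) (Fin 3) F4).rank ≤ 2 := by
      have hfac : (!![1, 0, 0; 0, 0, 0; 0, 1, 0] : Matrix (Fin 3) (Fin 3) F4) =
          (!![1, 0; 0, 0; 0, 1] : Matrix (Fin 3) (Fin 2) F4) *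
          (!![1, 0, 0; 0, 1, 0] : Matrix (Fin 2) (Fin 3) F4) := by
        apply Matrix.ext
        intro i j
        fin_cases i <;> fin_cases j <;> simp [Matrix.mul_apply, Fin.sum_univ_two]
      rw [hfac]
      exact (Matrix.rank_mul_le_left _ _).trans (Matrix.rank_le_width _)
    rw [rankDist, sub_zero]
    omega
  · rintro r ⟨A, hA, B, hB, hAB, rfl⟩
    exact two_le_rank3 (code3.sub_mem hA hB) (sub_ne_zero.2 hAB)
  · have h : (code3 : Set (Matrix (Fin 3) (Fin 3) F4)).ncard = 4 ^ 6 := card_code3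
    rw [h, Nat.card_eq_fintype_card, F4.card_eq]

/-- A set of matrices equivalent to a field spread set contains all scalar multiples of some
invertible matrix. -/
theorem exists_invertible {K L : Type} [Field K] [Field L] [Algebra K L] {n : ℕ}
    (b : Module.Basis (Fin n) K L) (S : Set (Matrix (Fin n) (Fin n) K))
    (h : Equivalent (fieldSpreadSet b) S) :
    ∃ N : Matrix (Fin n) (Fin n) K, IsUnit N.det ∧ ∀ c : K, c • N ∈ S := by
  obtain ⟨A, B, σ, h⟩ := h
  refine ⟨(A : Matrix (Fin n) (Fin n) K) * (B : Matrix (Fin n) (Fin n) K), ?_, ?_⟩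
  · rw [Matrix.det_mul]
    exact ((Matrix.isUnit_iff_isUnit_det _).1 A.isUnit).mul
      ((Matrix.isUnit_iff_isUnit_det _).1 B.isUnit)
  · intro c
    have hmem : (σ.symm c) • (1 : Matrix (Fin n) (Fin n) K) ∈ fieldSpreadSet b := by
      refine ⟨algebraMap K L (σ.symm c), ?_⟩
      have : LinearMap.mulLeft K (algebraMap K L (σ.symm c)) = (σ.symm c) • LinearMap.id := by
        ext x
        simp [Algebra.smul_def]
      change LinearMap.toMatrix b b (LinearMap.mulLeft K (algebraMap K L (σ.symm c))) = _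
      rw [this, map_smul, LinearMap.toMatrix_id]
    have hmap : ((σ.symm c) • (1 : Matrix (Fin n) (Fin n) K)).map σ =
        c • (1 : Matrix (Fin n) (Fin n) K) := by
      ext i j
      by_cases hij : i = j
      · subst hij; simp
      · simp [hij]
    rcases h with h | h
    · rw [h]
      refine ⟨_, hmem, ?_⟩
      change (A : Matrix (Fin n) (Fin n) K) * ((σ.symm c) • (1 : Matrix (Fin n) (Fin n) K)).map σ *
        (B : Matrix (Fin n) (Fin n) K) = _
      rw [hmap]; simp
    · rw [h]
      refine ⟨_, hmem, ?_⟩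
      change (A : Matrix (Fin n) (Fin n) K) *
        (((σ.symm c) • (1 : Matrix (Fin n) (Fin n) K)).map σ)ᵀ *
        (B : Matrix (Fin n) (Fin n) K) = _
      rw [hmap]; simp

/-- **Disproof of Q1.**  There is an additive MRD code in the `3 × 3` matrices over the field with
four elements, with minimum distance `2`, that contains no code equivalent to a field spread set;
hence it is not true that every additive MRD code in `M_n(K)` (`K` a finite field, `n ≥ 2`) with
minimum distance `d < n` contains a code equivalent to the field spread set. -/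
theorem result :
    (∃ (K : Type) (_ : Field K) (C : AddSubgroup (Matrix (Fin 3) (Fin 3) K)),
      Nat.card K = 4 ∧ IsMRD (C : Set (Matrix (Fin 3) (Fin 3) K)) 2 ∧
      ∀ (L : Type) (_ : Field L) (_ : Algebra K L) (b : Module.Basis (Fin 3) K L)
        (S : Set (Matrix (Fin 3) (Fin 3) K)),
        S ⊆ (C : Set (Matrix (Fin 3) (Fin 3) K)) → ¬ Equivalent (fieldSpreadSet b) S) ∧
    ¬ (∀ (K : Type) (_ : Field K) (_ : Finite K) (n d : ℕ), 2 ≤ n → 1 ≤ d → d < n →
      ∀ C : AddSubgroup (Matrix (Fin n) (Fin n) K), IsMRD (C : Set (Matrix (Fin n) (Fin n) K)) d →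
        ∃ (L : Type) (_ : Field L) (_ : Algebra K L) (b : Module.Basis (Fin n) K L)
          (S : Set (Matrix (Fin n) (Fin n) K)),
          S ⊆ (C : Set (Matrix (Fin n) (Fin n) K)) ∧ Equivalent (fieldSpreadSet b) S) := by
  have main : ∀ (L : Type) (_ : Field L) (_ : Algebra Pool.Agent.X258.MRD.F4 L)
      (b : Module.Basis (Fin 3) Pool.Agent.X258.MRD.F4 L)
      (S : Set (Matrix (Fin 3) (Fin 3) Pool.Agent.X258.MRD.F4)),
      S ⊆ (Pool.Agent.X258.MRD.code3 : Set (Matrix (Fin 3) (Fin 3) Pool.Agent.X258.MRD.F4)) →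
      ¬ Equivalent (fieldSpreadSet b) S := by
    intro L _ _ b S hS he
    obtain ⟨N, hN, hall⟩ := exists_invertible b S he
    have h1 : N ∈ Pool.Agent.X258.MRD.code3 := by
      have := hS (hall 1)
      rwa [one_smul] at this
    have h2 : Pool.Agent.X258.MRD.F4.om • N ∈ Pool.Agent.X258.MRD.code3 := hS (hall _)
    rw [Pool.Agent.X258.MRD.det_zero h1 h2] at hN
    exact not_isUnit_zero hN
  refine ⟨⟨Pool.Agent.X258.MRD.F4, inferInstance, Pool.Agent.X258.MRD.code3, ?_, code_isMRD,
    main⟩, fun hall => ?_⟩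
  · rw [Nat.card_eq_fintype_card, Pool.Agent.X258.MRD.F4.card_eq]
  · obtain ⟨L, hL, hA, b, S, hS, he⟩ := hall Pool.Agent.X258.MRD.F4 inferInstance inferInstance 3 2
      (by norm_num) (by norm_num) (by norm_num) Pool.Agent.X258.MRD.code3 code_isMRD
    exact main L hL hA b S hS he

end Pool.Agent.Results.MP_bf8bcd_co.NoFieldSpreadSet
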